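import Pool.Agent.H913.Row.Main2

/-!
# Almost all rows have many elements of breadth three

Let `c n` be the number of elements of breadth three in row `n` of the affine-orbit array. It is at
least the number of divisors `u > 1`, `u ≡ 1 (mod 6)`, of `3 n + 2`, since `S ^ i G ^ 3 (a, a)` lies in
row `n` if `3 n + 2 = (6 a + 1) (3 i + 2)`. If `3 n + 2` has `k` prime factors `≥ 5` then there are at
least `2 ^ (k - 1) - 1` such divisors. By Rankin's method and the inequality of Hall and Tenenbaum,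
`∑_{m ≤ x} z ^ ω(m) = O (x (log x) ^ (z - 1))` for `0 < z ≤ 1`, few integers have few prime factors.
So for each `C` and `θ < 1` only `O (x / (log x) ^ θ)` of the `n < x` have `c n ≤ C`; in particular
`c n` tends to infinity for almost all `n`.
-/

namespace Pool.Agent.Results.MP_5de915_nt.AlmostAllRows

open Finset Pool.Agent.H913.Row

theorem result :
    (∀ n : ℕ, ((3 * n + 2).divisors.filter (fun u => u % 6 = 1 ∧ u ≠ 1)).card ≤ c n) ∧
    (∀ α : ℝ, 0 < α → α < 1 → ∃ B : ℝ, ∀ x : ℕ, 3 ≤ x →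
      (((range x).filter (fun n => (c n : ℝ) < (Real.log x) ^ (α * Real.log 2))).card : ℝ) ≤
        B * x / (Real.log x) ^ (1 - α + α * Real.log α)) ∧
    (∀ C : ℕ, ∀ θ : ℝ, 0 < θ → θ < 1 → ∃ B : ℝ, ∀ x : ℕ, 3 ≤ x →
      (((range x).filter (fun n => c n ≤ C)).card : ℝ) ≤ B * x / (Real.log x) ^ θ) :=
  ⟨card_divs_le, main2, main3⟩

end Pool.Agent.Results.MP_5de915_nt.AlmostAllRows
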